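import Pool.Agent.R920.GR.Final

/-!
# Independence of the base field

For an extension of fields `k/k₀`, there is a motivic t-structure over `k` if and only if there is
one over `k₀`.
-/

set_option autoImplicit false
set_option backward.isDefEq.respectTransparency false
set_option backward.defeqAttrib.useBackward true

open CategoryTheory Limits MonoidalCategory Pretriangulated Triangulated
open Pool.Agent.Y116.MT (TensorTriangulated)
open Pool.Agent.R920

namespace Pool.Agent.Results.MP_6d0ce9_ag.BaseField

universe v u v' u' w z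

/-- The existence of a motivic t-structure over `k` is equivalent to the existence of one
over `k₀`. -/
theorem result {C₀ : Type u} [Category.{v} C₀] [Preadditive C₀] [HasZeroObject C₀] [HasShift C₀ ℤ]
    [∀ n : ℤ, (shiftFunctor C₀ n).Additive] [Pretriangulated C₀] [IsTriangulated C₀]
    [MonoidalCategory C₀] [SymmetricCategory C₀] [TensorTriangulated C₀] [MonoidalPreadditive C₀]
    [RightRigidCategory C₀] [Linear ℚ C₀] [IsIdempotentComplete C₀]
    {C : Type u'} [Category.{v'} C] [Preadditive C] [HasZeroObject C] [HasShift C ℤ]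
    [∀ n : ℤ, (shiftFunctor C n).Additive] [Pretriangulated C] [IsTriangulated C]
    [MonoidalCategory C] [SymmetricCategory C] [TensorTriangulated C] [MonoidalPreadditive C]
    [RightRigidCategory C] [Linear ℚ C] [IsIdempotentComplete C]
    {Λ : Type z} [Nonempty Λ] {E : Λ → Type w} [∀ l, Field (E l)] [∀ l, CharZero (E l)]
    {R₀ : ∀ l, GReal C₀ (E l)} {R : ∀ l, GReal C (E l)}
    (M₀ : ChowMotives R₀) (M : ChowMotives R) (B : BaseChange M₀ M)
    (hE : ∀ e : 𝟙_ C ⟶ 𝟙_ C, ∃ q : ℚ, e = q • 𝟙 (𝟙_ C)) :
    (∃ t₀ : TStructure C₀, IsMotivic t₀ R₀) ↔ ∃ t : TStructure C, IsMotivic t R :=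
  B.exists_t_iff hE

end Pool.Agent.Results.MP_6d0ce9_ag.BaseField
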