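import Pool.Agent.R920.GR.Slice

/-!
# A criterion in terms of Chow motives

The existence of the motivic t-structure is equivalent to three properties of Chow motives, for
one prime `l`.
-/

set_option autoImplicit false
set_option backward.isDefEq.respectTransparency false
set_option backward.defeqAttrib.useBackward true

open CategoryTheory Limits MonoidalCategory Pretriangulated Triangulated
open Pool.Agent.Y116.MT (TensorTriangulated)
open Pool.Agent.R920

namespace Pool.Agent.Results.MP_6d0ce9_ag.ChowCriterion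

universe v u w z

/-- There is a motivic t-structure for all the realisations if and only if, for one index `l`:
the homologically trivial endomorphisms of Chow motives are nilpotent; homological and numerical
equivalence coincide; and for a Chow motive `X` with cohomology in the degree `b` only, the
realisation is faithful on the morphisms `𝟙 ⟶ X⟦n⟧` with `n ≤ b`. -/
theorem result {C : Type u} [Category.{v} C] [Preadditive C] [HasZeroObject C] [HasShift C ℤ]
    [∀ n : ℤ, (shiftFunctor C n).Additive] [Pretriangulated C] [IsTriangulated C]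
    [MonoidalCategory C] [SymmetricCategory C] [TensorTriangulated C] [MonoidalPreadditive C]
    [RightRigidCategory C] [Linear ℚ C] [IsIdempotentComplete C]
    {Λ : Type z} {E : Λ → Type w} [∀ l, Field (E l)] [∀ l, CharZero (E l)]
    {R : ∀ l, GReal C (E l)} (M : ChowMotives R)
    (hE : ∀ e : 𝟙_ C ⟶ 𝟙_ C, ∃ q : ℚ, e = q • 𝟙 (𝟙_ C)) (l : Λ) :
    (∃ t : TStructure C, IsMotivic t R) ↔
      (∀ X : C, M.Chow X → ∀ f : X ⟶ X, (R l).Kills f → IsNilpotent (End.of f)) ∧
      (∀ X : C, M.Chow X → ∀ s : 𝟙_ C ⟶ X, ¬ (R l).Kills s → ∃ r : X ⟶ 𝟙_ C, s ≫ r ≠ 0) ∧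
      (∀ X : C, M.Chow X → ∀ b : ℤ, (∀ i : ℤ, i ≠ b → (R l).Van X i) → ∀ n ≤ b,
        ∀ s : 𝟙_ C ⟶ X⟦n⟧, (R l).Kills s → s = 0) := by
  rw [exists_t_iff M l hE]
  constructor
  · intro h
    exact ⟨h.nil (), h.num (), fun X hX b hb n hn s hs => h.van () X hX b (fun _ => hb) n hn s hs⟩
  · rintro ⟨h1, h2, h3⟩
    exact ⟨fun _ => h1, fun _ => h2, fun _ X hX b hb n hn s hs => h3 X hX b (hb ()) n hn s hs⟩

end Pool.Agent.Results.MP_6d0ce9_ag.ChowCriterion
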