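import Pool.Agent.R920.GR.Final

/-!
# Positive characteristic

For an extension `k` of a finite field `k₀`, there is a motivic t-structure over `k` if and only
if Parshin's conjecture holds over `k₀`, and rational and numerical equivalence coincide
over `k₀`.
-/

set_option autoImplicit false
set_option backward.isDefEq.respectTransparency false
set_option backward.defeqAttrib.useBackward true

open CategoryTheory Limits MonoidalCategory Pretriangulated Triangulated
open Pool.Agent.Y116.MT (TensorTriangulated)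
open Pool.Agent.R920

namespace Pool.Agent.Results.MP_6d0ce9_ag.FiniteField

universe v u v' u' w z

/-- The existence of a motivic t-structure over an arbitrary extension `k` of a finite field `k₀`
is equivalent to Parshin's conjecture and the equality of rational and numerical equivalence
over `k₀`. -/
theorem result {C₀ : Type u} [Category.{v} C₀] [Preadditive C₀] [HasZeroObject C₀] [HasShift C₀ ℤ]
    [∀ n : ℤ, (shiftFunctor C₀ n).Additive] [Pretriangulated C₀] [IsTriangulated C₀]
    [MonoidalCategory C₀] [SymmetricCategory C₀] [TensorTriangulated C₀] [MonoidalPreadditive C₀]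
    [RightRigidCategory C₀] [Linear ℚ C₀] [IsIdempotentComplete C₀]
    {C : Type u'} [Category.{v'} C] [Preadditive C] [HasZeroObject C] [HasShift C ℤ]
    [∀ n : ℤ, (shiftFunctor C n).Additive] [Pretriangulated C] [IsTriangulated C]
    [MonoidalCategory C] [SymmetricCategory C] [TensorTriangulated C] [MonoidalPreadditive C]
    [RightRigidCategory C] [Linear ℚ C] [IsIdempotentComplete C]
    {Λ : Type z} [Nonempty Λ] {E : Λ → Type w} [∀ l, Field (E l)] [∀ l, CharZero (E l)]
    {R₀ : ∀ l, GReal C₀ (E l)} {R : ∀ l, GReal C (E l)}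
    (M₀ : ChowMotives R₀) (Fr : FrobeniusEndo M₀) (M : ChowMotives R) (B : BaseChange M₀ M)
    (hE : ∀ e : 𝟙_ C ⟶ 𝟙_ C, ∃ q : ℚ, e = q • 𝟙 (𝟙_ C)) :
    (∃ t : TStructure C, IsMotivic t R) ↔
      (∀ P : C₀, M₀.Chow P → ∀ n : ℤ, n ≠ 0 → ∀ s : 𝟙_ C₀ ⟶ P⟦n⟧, s = 0) ∧
      (∀ P : C₀, M₀.Chow P → ∀ s : 𝟙_ C₀ ⟶ P, s ≠ 0 → ∃ r : P ⟶ 𝟙_ C₀, s ≫ r ≠ 0) :=
  B.exists_t_iff_parshin Fr hE

end Pool.Agent.Results.MP_6d0ce9_ag.FiniteField
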