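import Pool.Agent.R920.GR.Slice

/-!
# One prime suffices

If a non-degenerate t-structure on the category of constructible Voevodsky motives over a field
is compatible with the tensor product and makes the `l`-adic realisation t-exact for one prime
`l`, then it makes the `l`-adic realisations t-exact for all `l`.
-/

set_option autoImplicit false
set_option backward.isDefEq.respectTransparency false
set_option backward.defeqAttrib.useBackward true

open CategoryTheory Limits MonoidalCategory Pretriangulated Triangulated
open Pool.Agent.Y116.MT (TensorTriangulated)
open Pool.Agent.R920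

namespace Pool.Agent.Results.MP_6d0ce9_ag.OnePrime

universe v u w z

/-- A t-structure which is motivic for the realisation of one index `l` is motivic for all the
realisations. -/
theorem result {C : Type u} [Category.{v} C] [Preadditive C] [HasZeroObject C] [HasShift C ℤ]
    [∀ n : ℤ, (shiftFunctor C n).Additive] [Pretriangulated C] [IsTriangulated C]
    [MonoidalCategory C] [SymmetricCategory C] [TensorTriangulated C] [MonoidalPreadditive C]
    [RightRigidCategory C] [Linear ℚ C] [IsIdempotentComplete C]
    {Λ : Type z} {E : Λ → Type w} [∀ l, Field (E l)] [∀ l, CharZero (E l)]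
    {R : ∀ l, GReal C (E l)} (M : ChowMotives R)
    (hE : ∀ e : 𝟙_ C ⟶ 𝟙_ C, ∃ q : ℚ, e = q • 𝟙 (𝟙_ C))
    (l : Λ) (t : TStructure C)
    (ht : IsMotivic (Λ := Unit) (E := fun _ => E l) t (fun _ => R l)) :
    IsMotivic t R :=
  motivic_of_single M hE l ht

end Pool.Agent.Results.MP_6d0ce9_ag.OnePrime
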